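import Mathlib
import Pool.Agent.Lib.helper12.AV

namespace Pool.Agent.Results.MP_405423_al.Quot

open Pool.Agent.Lib.helper12.AV

noncomputable def N (G : Type) [Group G] {r : ℕ} (w : FreeGroup (Fin r)) (g : G) : ℕ :=
  Nat.card {x : Fin r → G // FreeGroup.lift x w = g}

noncomputable def inner (G : Type) [Fintype G] (f χ : G → ℂ) : ℂ :=
  (Fintype.card G : ℂ)⁻¹ * ∑ g, f g * star (χ g)

def SR (G : Type) [Group G] [Fintype G] : Prop :=
  ∀ (r : ℕ), 1 ≤ r → ∀ (w : FreeGroup (Fin r)) (V : Type) [AddCommGroup V] [Module ℂ V]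
    [FiniteDimensional ℂ V] (ρ : Representation ℂ G V), ρ.IsIrreducible →
    ∃ z : ℤ, inner G (fun g => (N G w g : ℂ)) ρ.character = z

theorem inner_iff {G : Type} [Group G] [Fintype G] {r : ℕ} (w : FreeGroup (Fin r)) (χ : G → ℂ)
    (z : ℤ) : inner G (fun g => (N G w g : ℂ)) χ = z ↔
      (Nat.card G : ℂ)⁻¹ * ∑ x : Fin r → G, χ (FreeGroup.lift x w) = z := by
  rw [← sum_count, ← star_inj, inner, Nat.card_eq_fintype_card]
  simp [N, mul_comm]

theorem fib {G H : Type} [Group G] [Group H] [Fintype G] [Fintype H] (f : G →* H)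
    (hf : Function.Surjective f) {r : ℕ} (w : FreeGroup (Fin r)) (χ : H → ℂ) :
    ∑ x : Fin r → G, χ (f (FreeGroup.lift x w)) =
      (Nat.card f.ker : ℂ) ^ r * ∑ y : Fin r → H, χ (FreeGroup.lift y w) := by
  classical
  have e : ∀ x : Fin r → G, f (FreeGroup.lift x w) = FreeGroup.lift (f ∘ x) w := fun x =>
    DFunLike.congr_fun (FreeGroup.ext_hom (f.comp (FreeGroup.lift x)) (FreeGroup.lift (f ∘ x))
      fun a => by simp) w
  choose s hs using hf
  let φ : (Fin r → G) ≃ (Fin r → H) × (Fin r → f.ker) :=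
    { toFun := fun x => (f ∘ x, fun i => ⟨(s (f (x i)))⁻¹ * x i, by simp [MonoidHom.mem_ker, hs]⟩)
      invFun := fun y i => s (y.1 i) * y.2 i
      left_inv := fun x => by ext i; simp
      right_inv := fun y => by
        have : ∀ i, f (y.2 i) = 1 := fun i => (y.2 i).2
        ext i <;> simp [hs, this] }
  rw [Fintype.sum_equiv φ _ (fun y => χ (FreeGroup.lift y.1 w)) fun x => by rw [e]; rfl,
    Fintype.sum_prod_type, Finset.mul_sum]
  simp

theorem result (G : Type) [Group G] [Fintype G] (K : Subgroup G) [K.Normal] [Fintype (G ⧸ K)]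
    (h : SR G) : SR (G ⧸ K) := by
  intro r hr w V _ _ _ ρ hρ
  have hs := QuotientGroup.mk'_surjective K
  let e : Subrepresentation (ρ.comp (QuotientGroup.mk' K)) ≃o Subrepresentation ρ :=
    { toFun := fun U => ⟨U.1, fun g v hv => by
        obtain ⟨g, rfl⟩ := hs g
        exact U.2 g hv⟩
      invFun := fun U => ⟨U.1, fun g v hv => U.2 _ hv⟩
      left_inv := fun _ => rfl
      right_inv := fun _ => rfl
      map_rel_iff' := Iff.rfl }
  obtain ⟨z, hz⟩ := h r hr w V (ρ.comp (QuotientGroup.mk' K)) (e.isSimpleOrder_iff.2 hρ)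
  rw [inner_iff] at hz
  have h1 := fib _ hs w ρ.character
  have h2 : Nat.card G = Nat.card (G ⧸ K) * Nat.card (QuotientGroup.mk' K).ker := by
    rw [QuotientGroup.ker_mk', Subgroup.card_eq_card_quotient_mul_card_subgroup K]
  have h3 : (Nat.card (QuotientGroup.mk' K).ker : ℂ) ≠ 0 := by exact_mod_cast Nat.card_pos.ne'
  obtain ⟨r, rfl⟩ : ∃ s, r = s + 1 := ⟨r - 1, by omega⟩
  obtain ⟨n, hn⟩ := int_of_rat (integral_rep ρ hr w) (a := z)
    (b := (Nat.card (QuotientGroup.mk' K).ker : ℤ) ^ r)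
    (pow_ne_zero _ (by exact_mod_cast Nat.card_pos.ne')) (by
      rw [← hz]
      erw [h1]
      rw [h2]
      push_cast
      field_simp
      ring)
  exact ⟨n, (inner_iff _ _ _).2 hn⟩

end Pool.Agent.Results.MP_405423_al.Quot
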